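import Pool.Agent.H84.FA.Defs
import Pool.Agent.H20.AB.All

/-!
From the definitions of `Defs` to those of `Pool.AB4`.
-/

set_option linter.unusedSectionVars false

namespace Pool.FA

open AlgebraicGeometry CategoryTheory Order Filter Topology

variable {X Y : Scheme.{0}} [IsIntegral X] [IsLocallyNoetherian X] [IsIntegral Y]
  [IsLocallyNoetherian Y] (s : Y ⟶ Spec (.of ℂ))

theorem idl_eq (y x : Y) : idl y x = AB4.idl y x := rfl

theorem mqt_eq (C : AB4.Cv Y) (x : AB4.Pt Y) : mqt C.1 x.1 = AB4.mqt C x := rfl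

theorem mul_eq (y x : Y) (E : AB4.Div Y) : mul y x E = AB4.mul y x E := rfl

theorem pic_eq : Pic (geo s) = AB4.Pic Y := rfl

theorem ample_eq (a : AB4.Pic Y) : Ample (G := geo s) a ↔ AB4.Ample a := Iff.rfl

theorem rk_eq (y : Y) (a : AB4.Pic Y) : rk (G := geo s) y a = AB4.rk s y a := rfl

theorem dg_eq (y : Y) (a : AB4.Pic Y) : dg (G := geo s) y a = AB4.dg s y a := rfl

theorem i1_eq (y : Y) (a : AB4.Pic Y) : i1 (G := geo s) y a = AB4.i1 s y a := rfl

theorem i2_eq (y : Y) (a b : AB4.Pic Y) : i2 (G := geo s) y a b = AB4.i2 s y a b := rfl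

theorem i3_eq (y : Y) (a b c : AB4.Pic Y) : i3 (G := geo s) y a b c = AB4.i3 s y a b c := rfl

theorem i4_eq (a b c d : AB4.Pic Y) : i4 (G := geo s) a b c d = AB4.i4 s a b c d := rfl

theorem c2_eq (K a b : AB4.Pic Y) : c2 (G := geo s) K a b = AB4.c2 s K a b := rfl

variable {s}

theorem numbers (h : Numbers (geo s)) : AB4.Numbers s where
  dim := h.dim
  curve := h.curve
  limit := h.limit
  pos := h.pos
  form1 := h.form1
  form2 := h.form2
  form3 := h.form3
  form4 := h.form4
  prime := h.prime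
  absorb := h.absorb
  kleiman := h.kleiman
  nef2 := h.nef2
  nef3 := h.nef3
  nef4 := h.nef4
  zero2 := h.zero2
  zero3 := h.zero3
  zero4 := h.zero4

theorem positivity (h : Positivity (geo s)) : AB4.Positivity s where
  chow := by
    intro w a ha r d
    obtain ⟨Z, h1, h2, h3⟩ := h.chow w a ha r d
    exact ⟨{y | Z y}, h1, h2, h3⟩
  bounded := by
    intro a ha d
    have h1 := h.bounded a ha d
    refine h1.subset ?_
    rintro _ ⟨p, hp, rfl⟩
    exact ⟨p, hp, rfl⟩
  ekl := by
    intro w a hw ha α hα B hB hwB h1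
    exact h.ekl w a hw ha α hα (fun y => y ∈ B) hB hwB h1
  seshadri4 := h.seshadri4
  seshadri3 := h.seshadri3
  valuation4 := h.valuation4
  valuation3 := by
    intro p
    obtain ⟨B, h1, h2, h3⟩ := h.valuation3 p
    exact ⟨{y | B y}, h1, h2, h3⟩

theorem campana_old (h : CampanaPeternell (geo s)) : AB4.CampanaPeternell s := by
  rintro K ⟨D, u, f, rfl, hD⟩ m A hm hA hps k hk
  exact h D ⟨u, f, hD⟩ m A hm hA hps k hk

theorem campana_new (h : AB4.CampanaPeternell s) : CampanaPeternell (geo s) := by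
  rintro D ⟨u, f, hD⟩ m A hm hA hps k hk
  exact h (AB4.cl D) ⟨D, u, f, rfl, hD⟩ m A hm hA hps k hk

theorem fourfold_old (h : Fourfold s) : AB4.Fourfold s := ⟨h.smooth, h.proper, h.projective⟩

theorem fourfold_new (h : AB4.Fourfold s) : Fourfold s := ⟨h.smooth, h.proper, h.projective⟩

theorem pullback_old {f : Y ⟶ X} {a : Pic (geo s)} (h : IsPullback f s a) :
    AB4.IsPullback f (a : AB4.Pic Y) := h

theorem pullback_new {f : Y ⟶ X} {a : Pic (geo s)} (h : AB4.IsPullback f (a : AB4.Pic Y)) :
    IsPullback f s a := h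

theorem final (t : X ⟶ Spec (.of ℂ)) (f : Y ⟶ X) (s : Y ⟶ Spec (.of ℂ)) (r : ℕ)
    (K M : Pic (geo s)) (E : Div (geo s))
    (hm : MinimalModel t f s r K M E) (hp : Published f s K M E)
    (h : ((∀ a, i4 M M M a = 0) ∧ c2 K M M ≠ 0) ∨
      ((∀ a b, i4 M M a b = 0) ∧ ∃ A, IsPullback f s A ∧ Nef A ∧ c2 K M A ≠ 0)) :
    Semiample M ∧ ∀ (Z : Scheme.{0}) [IsIntegral Z] [IsLocallyNoetherian Z]
      (u : Z ⟶ Spec (.of ℂ)), Fourfold u → Birational s u → CampanaPeternell (geo u) := by
  obtain rfl := hm.comp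
  have hm' : AB4.MinimalModel t f r K M E :=
    { proper := hm.proper
      projective := hm.projective
      normal := hm.normal
      fourfold := fourfold_old hm.fourfold
      canonical := by
        obtain ⟨D, hD, u, g, hg⟩ := hm.canonical
        exact ⟨D, u, g, hD, hg⟩
      resolution := hm.resolution
      pos := hm.pos
      pullback := hm.pullback
      discrepancy := hm.discrepancy
      nef := hm.nef }
  have hp' : AB4.Published t f K M E :=
    { numbers := numbers hp.numbers
      positivity := positivity hp.positivity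
      riemannRoch := hp.riemannRoch
      contracted := hp.contracted
      miyaoka := hp.miyaoka
      ambro := hp.ambro
      nakayama := by
        intro hM Z _ _ u hu hb
        exact campana_old (hp.nakayama hM Z u (fourfold_new hu) hb) }
  obtain ⟨h1, h2⟩ := AB4.final t f r K M E hm' hp' h
  refine ⟨h1, ?_⟩
  intro Z _ _ u hu hb
  exact campana_new (h2 Z u (fourfold_old hu) hb)

end Pool.FA
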