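import Mathlib

/-!
Definitions for the hand-in FourfoldAbundance (problem MP_370cf3_ag).

`Y` is an integral scheme with a morphism `s` to the spectrum of the complex numbers, in the end a
smooth projective fourfold.  Line bundles are classes of Weil divisors modulo divisors of rational
functions, their sections are described by effective divisors and by rational functions, degrees of
subvarieties by the dimensions of spaces of restricted sections.
-/

namespace Pool.FA

open AlgebraicGeometry CategoryTheory Order Filter Topology

/-! ### Local rings and rational functions -/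

/-- The preimage of the maximal ideal. -/
def pre (R S : Type) [CommRing R] [CommRing S] [IsLocalRing S] (φ : R →+* S) : Ideal R :=
  (IsLocalRing.maximalIdeal S).comap φ

/-- The length of `R / (m ^ k + I)`. -/
noncomputable def hilb (R : Type) [CommRing R] [IsLocalRing R] (I : Ideal R) (k : ℕ) : ℕ :=
  (Module.length R (R ⧸ (IsLocalRing.maximalIdeal R ^ k ⊔ I))).toNat

/-- The largest `k` such that all `g ≠ 0` with the property `S` are in `m ^ k + I`. -/
noncomputable def mulr (R : Type) [CommRing R] [IsLocalRing R] (I : Ideal R) (S : R → Prop) : ℕ :=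
  sSup {k : ℕ | ∀ g : R, g ≠ 0 → S g → g ∈ IsLocalRing.maximalIdeal R ^ k ⊔ I}

/-- `δ` is a derivation which vanishes on the constants `c`. -/
def IsDer (L : Type) [Field L] (c : ℂ → L) (δ : L → L) : Prop :=
  (∀ f g, δ (f + g) = δ f + δ g) ∧ (∀ f g, δ (f * g) = f * δ g + g * δ f) ∧ ∀ z, δ (c z) = 0

/-- `n` is the smallest order of the values `u det (δ_i f_j)` of the form `u df_1 df_2 df_3 df_4` on
quadruples of derivations which preserve the local ring `O`. -/
def Least (L : Type) [Field L] (c : ℂ → L) (O : L → Prop) (ord : L → ℤ) (u : L) (f : Fin 4 → L)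
    (n : ℤ) : Prop :=
  IsLeast {n : ℤ | ∃ (δ : Fin 4 → L → L) (v : L), (∀ i, IsDer L c (δ i)) ∧
    (∀ i g, O g → O (δ i g)) ∧ v = u * Matrix.det (fun i j => δ i (f j)) ∧ v ≠ 0 ∧ n = ord v} n

section

variable {Y : Scheme.{0}}

/-- The ideal of the closure of `y` in the local ring of `Y` at `x` (the functions which are not
invertible at `y`); the unit ideal if `x` is not in the closure of `y`. -/
noncomputable def idl (y x : Y) : Ideal (Y.presheaf.stalk x) :=
  open Classical in
  if h : y ⤳ x then pre _ _ (Y.presheaf.stalkSpecializes h).hom else ⊤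

/-- The multiplicity of the curve `C` at the closed point `x`: the largest value of
the Hilbert function `dim (m ^ k / m ^ (k + 1))` of the local ring of `C` at `x` (it has this value for
all large `k`). -/
noncomputable def mqt (C x : Y) : ℕ :=
  ⨆ k : ℕ, (hilb (Y.presheaf.stalk x) (idl C x) (k + 1) - hilb (Y.presheaf.stalk x) (idl C x) k)

variable [IsIntegral Y]

/-- Constants as rational functions. -/
noncomputable def cst (s : Y ⟶ Spec (.of ℂ)) : ℂ →+* Y.functionField :=
  ((Scheme.ΓSpecIso (.of ℂ)).inv ≫ s.appTop ≫ Y.presheaf.germ ⊤ (genericPoint Y) trivial).hom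

variable [IsLocallyNoetherian Y]

/-- `D` is the divisor of a rational differential form `u df_1 df_2 df_3 df_4` on the smooth fourfold
`Y`: the order of the form along a prime divisor `p` is the smallest order of its values on
quadruples of derivations which preserve the local ring of `p` (the smallest order is attained if
they are a basis of the module of these derivations). -/
def IsDivForm (s : Y ⟶ Spec (.of ℂ)) (D : {p : Y // coheight p = 1} → ℤ) : Prop :=
  ∃ u f, ∀ p, Least Y.functionField (cst s)
    (fun g => g ∈ (algebraMap (Y.presheaf.stalk p.1) Y.functionField).range)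
    (fun v => Scheme.ord v p.1) u f (D p)

/-- The multiplicity at the point `x` of the restriction of the effective divisor `E` to the
subvariety with generic point `y`: the largest `m` such that the local equation of `E` at `x` (it
generates the ideal of the functions `g` with `div g ≥ E` near `x`) is in the `m`-th power of the
maximal ideal, modulo the ideal of the subvariety. -/
noncomputable def mul (y x : Y) (E : {p : Y // coheight p = 1} → ℤ) : ℕ :=
  mulr (Y.presheaf.stalk x) (idl y x) (fun g => ∀ p, p.1 ⤳ x → E p ≤
    Scheme.ord (algebraMap (Y.presheaf.stalk x) Y.functionField g) p.1)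

end

/-- The data of a variety which are used below: points (irreducible subvarieties), specialisation,
dimension and codimension, the generic point; open and affine sets; closed sets; rational
functions, zero, linear combinations with constant coefficients, the order along a prime divisor;
multiplicities; divisors of differential forms. -/
structure Geo where
  P : Type
  spz : P → P → Prop
  ht : P → ℕ∞
  coht : P → ℕ∞
  gen : P
  Op : Type
  mem : P → Op → Prop
  aff : Op → Prop
  closed : (P → Prop) → Prop
  F : Type
  zero : F
  lin : ∀ n : ℕ, (Fin n → ℂ) → (Fin n → F) → F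
  ord : F → P → ℤ
  mqt : P → P → ℕ
  mul : P → P → ({p : P // coht p = 1} → ℤ) → ℕ
  form : ({p : P // coht p = 1} → ℤ) → Prop

/-- The data of `Y`. -/
noncomputable def geo {Y : Scheme.{0}} [IsIntegral Y] [IsLocallyNoetherian Y]
    (s : Y ⟶ Spec (.of ℂ)) : Geo where
  P := Y
  spz := Specializes
  ht := height
  coht := coheight
  gen := genericPoint Y
  Op := Y.Opens
  mem := fun y U => y ∈ U
  aff := IsAffineOpen
  closed := fun B => IsClosed {y | B y}
  F := Y.functionField
  zero := 0
  lin := fun _ c f => ∑ i, cst s (c i) * f i
  ord := Scheme.ord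
  mqt := mqt
  mul := mul
  form := IsDivForm s

/-! ### Line bundles -/

section

/-- Prime divisors: the points of `Y` whose closure has codimension one. -/
abbrev Pr (G : Geo) : Type := {p : G.P // G.coht p = 1}

/-- Irreducible curves: the points of `Y` whose closure has dimension one. -/
abbrev Cv (G : Geo) : Type := {C : G.P // G.ht C = 1}

/-- Closed points. -/
abbrev Pt (G : Geo) : Type := {x : G.P // G.ht x = 0}

def pr {G : Geo} (p : Pr G) : G.P := p.1

def cv {G : Geo} (C : Cv G) : G.P := C.1

def pt {G : Geo} (x : Pt G) : G.P := x.1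

/-- Divisors. -/
abbrev Div (G : Geo) : Type := Pr G →₀ ℤ

/-- The coefficient of `p` in `D`. -/
def co {G : Geo} (D : Div G) (p : Pr G) : ℤ := D p

/-- Divisors of rational functions. -/
noncomputable def Prin (G : Geo) : AddSubgroup (Div G) :=
  AddSubgroup.closure {D | ∃ f : G.F, f ≠ G.zero ∧ ∀ p, co D p = G.ord f (pr p)}

/-- The group of divisors modulo divisors of functions, for smooth `Y` the group of line bundles. -/
def Pic (G : Geo) : Type := Div G ⧸ Prin G

/-- The class of a divisor. -/
noncomputable def cl {G : Geo} (D : Div G) : Pic G := (QuotientAddGroup.mk D : Div G ⧸ Prin G)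

noncomputable instance instPic (G : Geo) : AddCommGroup (Pic G) :=
  QuotientAddGroup.Quotient.addCommGroup (Prin G)

/-- The sum. -/
noncomputable def add {G : Geo} (a b : Pic G) : Pic G := a + b

/-- The difference. -/
noncomputable def sub {G : Geo} (a b : Pic G) : Pic G := a - b

/-- The multiple `n a`. -/
noncomputable def sm {G : Geo} (n : ℕ) (a : Pic G) : Pic G := n • a

variable {G : Geo}

/-- The class of a prime divisor. -/
noncomputable def clp (p : Pr G) : Pic G := cl (Finsupp.single p 1)

/-- The divisor `D` is effective. -/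
def Effective (D : Div G) : Prop := ∀ p, 0 ≤ co D p

/-- The class `a` is ample: the affine complements of the effective divisors in the positive
multiples of `a` cover `Y`. -/
def Ample (a : Pic G) : Prop :=
  ∀ x : G.P, ∃ m : ℕ, 0 < m ∧ ∃ D : Div G, Effective D ∧ cl D = sm m a ∧
    ∃ U : G.Op, G.aff U ∧ G.mem x U ∧ ∀ y, G.mem y U ↔ ∀ p, G.spz (pr p) y → co D p = 0

/-- The dimension of the image of the space of sections of the line bundle `a` in the sections over
the subvariety with generic point `y`: the largest number of rational functions `f` with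
`div f + D ≥ 0`, `D` a divisor in the class `a`, such that for every linear combination `g` which
is not trivial `g ≠ 0` and the section `g` does not vanish on the subvariety, that is, the
divisor `div g + D` does not contain it. -/
noncomputable def rk (y : G.P) (a : Pic G) : ℕ :=
  sSup {n : ℕ | ∃ (D : Div G) (f : Fin n → G.F), cl D = a ∧ ∀ c : Fin n → ℂ, c ≠ 0 →
    ∃ g : G.F, g = G.lin n c f ∧ g ≠ G.zero ∧
      ∀ p, 0 ≤ G.ord g (pr p) + co D p ∧ (G.spz (pr p) y → G.ord g (pr p) + co D p = 0)}

/-- The dimension of the space of sections of the line bundle `a`. -/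
noncomputable def h0 (a : Pic G) : ℕ := rk G.gen a

/-- The sequence whose limit is the degree. -/
noncomputable def seq (y : G.P) (a : Pic G) (k : ℕ) : ℝ :=
  ((G.ht y).toNat.factorial : ℝ) * rk y (sm k a) / (k : ℝ) ^ (G.ht y).toNat

/-- The degree `a ^ r · W` of the subvariety `W` of dimension `r` with generic point `y`, for an
ample line bundle `a`: the limit of `r! dim H^0(W, k a) / k ^ r`. -/
noncomputable def dg (y : G.P) (a : Pic G) : ℝ := limsup (seq y a) atTop

/-- `I` is the linear form on line bundles given by the degree on the curve with generic point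
`y`. -/
def IsForm1 (y : G.P) (I : Pic G → ℤ) : Prop :=
  (∀ a b, I (add a b) = I a + I b) ∧ ∀ a, Ample a → (I a : ℝ) = dg y a

/-- `I` is the intersection form on the surface with generic point `y`. -/
def IsForm2 (y : G.P) (I : Pic G → Pic G → ℤ) : Prop :=
  (∀ a b c, I (add a b) c = I a c + I b c) ∧ (∀ a b, I a b = I b a) ∧
    ∀ a, Ample a → (I a a : ℝ) = dg y a

/-- `I` is the intersection form on the threefold with generic point `y`. -/
def IsForm3 (y : G.P) (I : Pic G → Pic G → Pic G → ℤ) : Prop :=
  (∀ a b c d, I (add a b) c d = I a c d + I b c d) ∧ (∀ a b c, I a b c = I b a c) ∧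
    (∀ a b c, I a b c = I a c b) ∧ ∀ a, Ample a → (I a a a : ℝ) = dg y a

/-- `I` is the intersection form on the fourfold with generic point `y`. -/
def IsForm4 (y : G.P) (I : Pic G → Pic G → Pic G → Pic G → ℤ) : Prop :=
  (∀ a b c d e, I (add a b) c d e = I a c d e + I b c d e) ∧
    (∀ a b c d, I a b c d = I b a c d) ∧ (∀ a b c d, I a b c d = I a c b d) ∧
    (∀ a b c d, I a b c d = I a b d c) ∧ ∀ a, Ample a → (I a a a a : ℝ) = dg y a

open Classical in
/-- The degree of line bundles on the curve with generic point `y`. -/
noncomputable def i1 (y : G.P) : Pic G → ℤ := if h : ∃ I, IsForm1 y I then h.choose else 0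

open Classical in
/-- The intersection form of the surface with generic point `y`. -/
noncomputable def i2 (y : G.P) : Pic G → Pic G → ℤ := if h : ∃ I, IsForm2 y I then h.choose else 0

open Classical in
/-- The intersection form of the threefold with generic point `y`. -/
noncomputable def i3 (y : G.P) : Pic G → Pic G → Pic G → ℤ :=
  if h : ∃ I, IsForm3 y I then h.choose else 0

open Classical in
/-- The intersection form of the fourfold `Y`. -/
noncomputable def i4 : Pic G → Pic G → Pic G → Pic G → ℤ :=
  if h : ∃ I, IsForm4 G.gen I then h.choose else 0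

/-- The line bundle `a` is nef: its degree on every curve is nonnegative. -/
def Nef (a : Pic G) : Prop := ∀ C : Cv G, 0 ≤ i1 (cv C) a

/-- `c` is the quadratic form on line bundles given by the second Chern class of the smooth
projective fourfold `Y` with canonical class `K`, characterised by the theorem of Riemann-Roch: if
`a - K` is ample, then `24 h^0(a) = 24 χ(a) = a^4 - 2 K a^3 + (K^2 + c_2) a^2 - K c_2 a + 24 χ(O)`. -/
def IsC2 (K : Pic G) (c : Pic G → Pic G → ℤ) : Prop :=
  (∀ a b d, c (add a b) d = c a d + c b d) ∧ (∀ a b, c a b = c b a) ∧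
    ∃ e : ℤ, ∀ a : Pic G, Ample (sub a K) →
      24 * (h0 a : ℤ) = i4 a a a a - 2 * i4 K a a a + i4 K K a a + c a a - c K a + e

open Classical in
/-- The second Chern class of `Y`, as a quadratic form: `c2 K a b` is `c_2(Y) · a · b`. -/
noncomputable def c2 (K : Pic G) : Pic G → Pic G → ℤ := if h : ∃ c, IsC2 K c then h.choose else 0

/-- The Seshadri constant at the closed point `x` of the ample line bundle `a`, restricted to the
subvariety with generic point `y`, is at least `ε`. -/
def Sesh (y : G.P) (x : Pt G) (a : Pic G) (ε : ℝ) : Prop :=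
  ∀ C : Cv G, G.spz y (cv C) → G.spz (cv C) (pt x) → ε * G.mqt (cv C) (pt x) ≤ i1 (cv C) a

/-- The line bundle `a` is semiample: for some `k > 0` the sections of `k a` have no common zero. -/
def Semiample (a : Pic G) : Prop :=
  ∃ k : ℕ, 0 < k ∧ ∀ x, ∃ E : Div G, Effective E ∧ cl E = sm k a ∧
    ∀ p, G.spz (pr p) x → co E p = 0

/-- The Kodaira dimension of the line bundle `a` is at least `k`. -/
def KodairaGe (a : Pic G) (k : ℕ) : Prop :=
  ∃ m : ℕ, 0 < m ∧ ∃ c : ℝ, 0 < c ∧ ∀ j : ℕ, 0 < j → c * (j : ℝ) ^ k ≤ h0 (sm (j * m) a)

/-- The class of `a` is in the closure of the cone of effective divisors: for every ample `h` and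
every `m` some positive multiple of `m a + h` has a section. -/
def Pseff (a : Pic G) : Prop :=
  ∀ h : Pic G, Ample h → ∀ m : ℕ, ∃ k : ℕ, 0 < k ∧ h0 (sm k (add (sm m a) h)) ≠ 0

variable (G)

/-- The conjecture of Campana and Peternell for `Y`.  If `K_Y` is linearly equivalent over the
rational numbers to `A + B` with `A` effective and `B` pseudo-effective, clear the denominators. -/
def CampanaPeternell : Prop :=
  ∀ D : Div G, G.form (co D) → ∀ (m : ℕ) (A : Div G), 0 < m → Effective A →
    Pseff (sub (sm m (cl D)) (cl A)) → ∀ k : ℕ, KodairaGe (cl A) k → KodairaGe (cl D) k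

/-- Intersection numbers on the smooth projective fourfold `Y`. -/
structure Numbers : Prop where
  /-- the sum of the dimension and the codimension is four -/
  dim : ∀ y, G.ht y + G.coht y = 4
  /-- a closed point of a subvariety of positive dimension is on a curve in the subvariety -/
  curve : ∀ y x, G.spz y (pt x) → 1 ≤ G.ht y → ∃ C, G.spz y (cv C) ∧ G.spz (cv C) (pt x)
  /-- Hilbert: the limit which defines the degree exists -/
  limit : ∀ (y : G.P) (a : Pic G), Ample a → Tendsto (seq y a) atTop (𝓝 (dg y a))
  /-- the degree for an ample line bundle is positive -/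
  pos : ∀ (y : G.P) (a : Pic G), Ample a → 0 < dg y a
  /-- intersection numbers exist -/
  form1 : ∀ y : G.P, G.ht y = 1 → ∃ I, IsForm1 y I
  form2 : ∀ y : G.P, G.ht y = 2 → ∃ I, IsForm2 y I
  form3 : ∀ y : G.P, G.ht y = 3 → ∃ I, IsForm3 y I
  form4 : ∃ I, IsForm4 G.gen I
  /-- the intersection form of a prime divisor is the restriction of the one of `Y` -/
  prime : ∀ (p : Pr G) (a b c : Pic G), i4 (clp p) a b c = i3 (pr p) a b c
  /-- the sum of an ample line bundle and a large multiple of an ample line bundle is ample -/
  absorb : ∀ a b : Pic G, Ample a → ∃ k : ℕ, 0 < k ∧ Ample (sm k a) ∧ Ample (add (sm k a) b)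
  /-- Kleiman 1966: the sum of a nef and an ample line bundle is ample -/
  kleiman : ∀ a b : Pic G, Nef a → Ample b → Ample (add a b)
  /-- Kleiman 1966: intersection numbers of nef line bundles are nonnegative -/
  nef2 : ∀ y : G.P, G.ht y = 2 → ∀ a b : Pic G, Nef a → Nef b → 0 ≤ i2 y a b
  nef3 : ∀ y : G.P, G.ht y = 3 → ∀ a b c : Pic G, Nef a → Nef b → Nef c → 0 ≤ i3 y a b c
  nef4 : ∀ a b c d : Pic G, Nef a → Nef b → Nef c → Nef d → 0 ≤ i4 a b c d
  /-- if the product of a nef line bundle `a` and of powers of an ample line bundle `h` is zero on a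
  subvariety, then `a` has degree zero on all curves in it (a curve in the subvariety is a
  component of an intersection of divisors of multiples of `h`) -/
  zero2 : ∀ y, G.ht y = 2 → ∀ a h : Pic G, Nef a → Ample h → i2 y a h = 0 →
    ∀ C, G.spz y (cv C) → i1 (cv C) a = 0
  zero3 : ∀ y, G.ht y = 3 → ∀ a h : Pic G, Nef a → Ample h → i3 y a h h = 0 →
    ∀ C, G.spz y (cv C) → i1 (cv C) a = 0
  zero4 : ∀ a h : Pic G, Nef a → Ample h → i4 a h h h = 0 → ∀ C, i1 (cv C) a = 0

/-- Families of subvarieties, Seshadri constants and valuations on the smooth projective fourfold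
`Y`. -/
structure Positivity : Prop where
  /-- Chow: the union of the subvarieties of dimension `r` and degree at most `d` which are contained
  in a given subvariety is closed -/
  chow : ∀ (w : G.P) (a : Pic G), Ample a → ∀ (r : ℕ) (d : ℝ), ∃ Z : G.P → Prop, G.closed Z ∧
    (∀ y, G.spz w y → G.ht y = r → dg y a ≤ d → Z y) ∧
    ∀ x, Z (pt x) → ∃ y, G.spz w y ∧ G.spz y (pt x) ∧ G.ht y = r ∧ dg y a ≤ d
  /-- the prime divisors of bounded degree are in finitely many numerical classes -/
  bounded : ∀ a : Pic G, Ample a → ∀ d : ℝ,
    {I | ∃ p, dg (pr p) a ≤ d ∧ i3 (pr p) = I}.Finite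
  /-- Ein-Kuechle-Lazarsfeld 1995, Theorem 3.1, for the subvariety `W` with generic point `w`: if
  `a ^ r · V ≥ (r α) ^ r` for all subvarieties `V` of `W` of dimension `r ≥ 1` which are not
  contained in `B`, then the Seshadri constant of `a` is at least `α` at the very general points of
  `W`, in particular at some point outside `B` -/
  ekl : ∀ (w : G.P) (a : Pic G), 1 ≤ G.ht w → Ample a → ∀ α : ℝ, 0 < α → ∀ B : G.P → Prop,
    G.closed B → ¬ B w →
    (∀ (y : G.P) (r : ℕ), G.spz w y → G.ht y = r → 1 ≤ r → ¬ B y → (r * α) ^ r ≤ dg y a) →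
    ∃ x, G.spz w (pt x) ∧ ¬ B (pt x) ∧ Sesh w x a α
  /-- on the blow-up of `Y` at `x` the pullback of `a` minus `ε` times the exceptional divisor is
  nef, the proper transform of an effective divisor `D` is effective; their intersection number
  is `D a ^ 3 - ε ^ 3 mult_x D` -/
  seshadri4 : ∀ (x : Pt G) (a : Pic G) (ε : ℝ), Ample a → 0 ≤ ε → Sesh G.gen x a ε →
    ∀ D : Div G, Effective D → G.mul G.gen (pt x) (co D) * ε ^ 3 ≤ i4 (cl D) a a a
  /-- the same for the restriction of `D` to a prime divisor `p` which is not a component of
  `D` -/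
  seshadri3 : ∀ (p : Pr G) (x : Pt G) (a : Pic G) (ε : ℝ), G.spz (pr p) (pt x) → Ample a →
    0 ≤ ε → Sesh (pr p) x a ε → ∀ D : Div G, Effective D → co D p = 0 →
    G.mul (pr p) (pt x) (co D) * ε ^ 2 ≤ i3 (pr p) (cl D) a a
  /-- Let `x` be a closed point and `P` the exceptional divisor of the blow-up of `x`, a projective
  space of dimension three; choose a plane in `P`, a line in the plane and a point on the
  line.  The valuation vector of a nonzero section of a line bundle is `(m, i, j, k)`: `m` is its
  multiplicity at `x`, `i` the multiplicity of the plane in the surface of degree `m` in `P` given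
  by the leading form, `j` the multiplicity of the line in the curve of degree `m - i` in the plane
  cut out by the rest of the surface, `k` the multiplicity of the point in the divisor of degree
  `m - i - j` on the line.  `S a` is the set of these vectors for the sections of `a`.  It has
  `h^0(a)` elements, because a valuation of maximal rational rank has one-dimensional leaves
  (Lazarsfeld-Mustata 2009, Lemma 1.4), and valuation vectors of products are sums.  The last
  line: some multiple of an ample `a` separates tangent vectors at `x`. -/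
  valuation4 : ∀ x : Pt G, ∃ S : Pic G → Finset (Fin 4 → ℤ),
    (∀ a, (S a).card = h0 a) ∧
    (∀ a b, ∀ u ∈ S a, ∀ v ∈ S b, u + v ∈ S (add a b)) ∧
    (∀ a, ∀ v ∈ S a, (∀ i, 0 ≤ v i) ∧ v 1 + v 2 + v 3 ≤ v 0 ∧
      ∃ D : Div G, Effective D ∧ cl D = a ∧ (G.mul G.gen (pt x) (co D) : ℤ) = v 0) ∧
    ∀ a, Ample a → ∃ k : ℕ, 0 < k ∧ ![0, 0, 0, 0] ∈ S (sm k a) ∧ ![1, 0, 0, 0] ∈ S (sm k a) ∧
      ![1, 1, 0, 0] ∈ S (sm k a) ∧ ![1, 0, 1, 0] ∈ S (sm k a) ∧ ![1, 0, 0, 1] ∈ S (sm k a)
  /-- Let `p` be a prime divisor and `x` a smooth point of `p` (the other points of `p` are in a closed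
  subset `B`), choose a line in the projective plane of the tangent directions of `p` at `x` and a
  point on the line.  The valuation vector of a nonzero section of a line bundle is
  `(b, m, i, j)`: `b` is the multiplicity of `p`, and after the division by the `b`-th power of the
  equation of `p` the restriction to `p` has multiplicity `m` at `x`, and `i`, `j` are as above.
  The last line: if `a` is ample, then for large `k` the restriction of `k a` to `p` separates
  tangent vectors at `x`, and `k a - p` has a section which is not zero at `x`. -/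
  valuation3 : ∀ p : Pr G, ∃ B : G.P → Prop, G.closed B ∧ ¬ B (pr p) ∧
    ∀ x : Pt G, G.spz (pr p) (pt x) → ¬ B (pt x) →
    ∃ S : Pic G → Finset (Fin 4 → ℤ),
      (∀ a, (S a).card = h0 a) ∧
      (∀ a b, ∀ u ∈ S a, ∀ v ∈ S b, u + v ∈ S (add a b)) ∧
      (∀ a, ∀ v ∈ S a, (∀ i, 0 ≤ v i) ∧ v 2 + v 3 ≤ v 1 ∧
        ∃ D : Div G, Effective D ∧ co D p = 0 ∧ add (cl D) (v 0 • clp p) = a ∧
          (G.mul (pr p) (pt x) (co D) : ℤ) = v 1) ∧
      ∀ a, Ample a → ∃ k : ℕ, 0 < k ∧ ![0, 0, 0, 0] ∈ S (sm k a) ∧ ![1, 0, 0, 0] ∈ S (sm k a) ∧
        ![0, 1, 0, 0] ∈ S (sm k a) ∧ ![0, 1, 1, 0] ∈ S (sm k a) ∧ ![0, 1, 0, 1] ∈ S (sm k a)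

end

/-! ### Minimal models -/

section

variable {X Y : Scheme.{0}} [IsIntegral X] [IsLocallyNoetherian X] [IsIntegral Y]
  [IsLocallyNoetherian Y]

/-- `Y` is a smooth projective fourfold. -/
structure Fourfold (s : Y ⟶ Spec (.of ℂ)) : Prop where
  smooth : SmoothOfRelativeDimension 4 s
  proper : IsProper s
  projective : ∃ a : Pic (geo s), Ample a

/-- The line bundle `a` on `Y` is the pullback of a line bundle on `X`: over a neighbourhood of every
point of `X` it is trivial. -/
def IsPullback (f : Y ⟶ X) (s : Y ⟶ Spec (.of ℂ)) (a : Pic (geo s)) : Prop :=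
  ∃ D : Div (geo s), cl D = a ∧ ∀ x : X, ∃ U : X.Opens, x ∈ U ∧ ∃ g : (geo s).F,
    g ≠ (geo s).zero ∧ ∀ p, (geo s).mem (pr p) (f ⁻¹ᵁ U) → (geo s).ord g (pr p) = co D p

/-- The fourfold `Z` is birational to `Y`: the fields of rational functions are isomorphic over the
complex numbers. -/
def Birational (s : Y ⟶ Spec (.of ℂ)) {Z : Scheme.{0}} [IsIntegral Z]
    (u : Z ⟶ Spec (.of ℂ)) : Prop :=
  ∃ e : Y.functionField ≃+* Z.functionField, ∀ z : ℂ, e (cst s z) = cst u z

/-- `X` is a projective fourfold with terminal singularities and nef canonical class (a minimal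
model), `f : Y ⟶ X` is a resolution of the singularities, an isomorphism over an open set `U` of
`X` whose complement has dimension at most one, `K` is the canonical class of `Y`, `r K_X` is a
line bundle, `M` is its pullback, and `r K = M + E`.  (That `X` is terminal means: the
coefficients of `E` are positive on the prime divisors which are contracted by `f`.  If `X` is
smooth, one can take `Y = X`, `E = 0`, `r = 1`, `M = K`.) -/
structure MinimalModel (t : X ⟶ Spec (.of ℂ)) (f : Y ⟶ X) (s : Y ⟶ Spec (.of ℂ)) (r : ℕ)
    (K M : Pic (geo s)) (E : Div (geo s)) : Prop where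
  comp : f ≫ t = s
  proper : IsProper t
  projective : ∃ a : Pic (geo t), Ample a
  normal : ∀ x : X, IsIntegrallyClosed (X.presheaf.stalk x)
  fourfold : Fourfold s
  canonical : ∃ D : Div (geo s), cl D = K ∧ (geo s).form (co D)
  resolution : ∃ U : X.Opens, IsIso (f ∣_ U) ∧
    (∀ x : (geo t).P, ¬ (geo t).mem x U → (geo t).ht x ≤ 1) ∧
    ∀ p, ((geo s).mem (pr p) (f ⁻¹ᵁ U) → co E p = 0) ∧
      (¬ (geo s).mem (pr p) (f ⁻¹ᵁ U) → 0 < co E p)
  pos : 0 < r
  pullback : IsPullback f s M
  discrepancy : sm r K = add M (cl E)
  nef : Nef M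

/-- The published theorems for the resolution `f : Y ⟶ X` of a minimal model of dimension four. -/
structure Published (f : Y ⟶ X) (s : Y ⟶ Spec (.of ℂ)) (K M : Pic (geo s)) (E : Div (geo s)) :
    Prop where
  numbers : Numbers (geo s)
  positivity : Positivity (geo s)
  /-- Riemann-Roch and Kodaira vanishing -/
  riemannRoch : ∃ c, IsC2 K c
  /-- the image in `X` of a component `p` of `E` has dimension at most one, and so the product of
  `p` and of two line bundles pulled back from `X` is zero -/
  contracted : ∀ p, co E p ≠ 0 → ∀ a b c : Pic (geo s), IsPullback f s a →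
    IsPullback f s b → i4 (clp p) a b c = 0
  /-- Miyaoka 1987: the second Chern class of a minimal model has nonnegative product with nef
  line bundles (`X` is smooth in codimension two and `f` is an isomorphism there) -/
  miyaoka : ∀ a b : Pic (geo s), IsPullback f s a → IsPullback f s b → Nef a → Nef b → 0 ≤ c2 K a b
  /-- Ambro 2004: if the nef dimension of the canonical class of a minimal model of dimension four is
  at most three, that is, if curves of degree zero pass through all points, then the canonical
  class is semiample -/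
  ambro : (∀ x : Pt (geo s), ∃ C : Cv (geo s), (geo s).spz (cv C) (pt x) ∧ i1 (cv C) M = 0) →
    Semiample M
  /-- If the canonical class of the minimal model is semiample, then the conjecture of Campana and
  Peternell holds for every smooth projective variety `Z` with the same function field: `κ(A)` is at
  most the numerical dimension of `K_Z` in the sense of Nakayama 2004, which is a birational
  invariant and is equal to `κ(Z)`. -/
  nakayama : Semiample M → ∀ (Z : Scheme.{0}) [IsIntegral Z] [IsLocallyNoetherian Z]
    (u : Z ⟶ Spec (.of ℂ)), Fourfold u → Birational s u → CampanaPeternell (geo u)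

end

end Pool.FA
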